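import Pool.Agent.H9.StripDefs
import Pool.Agent.H9.StripF
import Pool.Agent.H9.StripG

/-! MP_6b55e5_an, both questions of Rogers: not every Besicovitch set has property (S), but some
Besicovitch set has it. -/

namespace Pool.Agent.Results.MP_6b55e5_an.Both

open Pool.Agent.H9.Strip MeasureTheory

/-- Q1: there is a Besicovitch set all of whose coverings by finitely or countably many strips have
total width at least `1/15`. Q2: there is a Besicovitch set which for every `ε > 0` has a covering
by strips of total width less than `ε`. -/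
theorem result :
    (∃ E : Set (ℝ × ℝ), IsBesicovitch E ∧
      ∀ (ι : Type) (p q c w : ι → ℝ), IsStripCover E p q c w →
        ENNReal.ofReal (1 / 15) ≤ ∑' i, ENNReal.ofReal (w i)) ∧
    (∃ E : Set (ℝ × ℝ), IsBesicovitch E ∧ ∀ ε : ℝ, 0 < ε →
      ∃ (ι : Type) (p q c w : ι → ℝ), IsStripCover E p q c w ∧
        ∑' i, ENNReal.ofReal (w i) < ENNReal.ofReal ε) :=
  ⟨q1, q2⟩

end Pool.Agent.Results.MP_6b55e5_an.Both
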