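import Pool.Agent.H9.StripDefs
import Pool.Agent.H9.StripF

/-! MP_6b55e5_an, Q1: not every Besicovitch set has property (S). -/

namespace Pool.Agent.Results.MP_6b55e5_an.NoPropertyS

open Pool.Agent.H9.Strip MeasureTheory

/-- There is a Besicovitch set `E` such that every covering of `E` by finitely or countably many
strips has total width at least `1/15`. -/
theorem result : ∃ E : Set (ℝ × ℝ), IsBesicovitch E ∧
    ∀ (ι : Type) (p q c w : ι → ℝ), IsStripCover E p q c w →
      ENNReal.ofReal (1 / 15) ≤ ∑' i, ENNReal.ofReal (w i) := q1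

end Pool.Agent.Results.MP_6b55e5_an.NoPropertyS
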